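import Pool.Agent.Y472.C.Defs
import Pool.Agent.W719.AX.Gex
import Pool.Agent.W719.AX.Stp
import Pool.Agent.W715.VC.Axis

/-!
# Closed 3-braids, with and without the braid axis: expansions to all orders.  Statements

Model: `Pool.Agent.W719.AX` (`Gen`, `Ker`, `Stp`), and the limit versions in `Pool.Agent.Y472.B`,
`Pool.Agent.Y472.C`.
-/

set_option autoImplicit false

namespace Pool.Agent.Y482.Ph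

open Finset Filter Topology Metric
open Pool.Agent.W711.HT
open Pool.Agent.Y472
open Pool.Agent.Y481 (itI itN Sep LN wts cw)
open Pool.Agent.W719.AX (UX EXY Rl ig)
open scoped Real

/-! ### Exact formulas with their phases -/

/-- the phase -/
noncomputable def pz (N : ℕ) (ls : List (ℤ × ℤ)) (m : ℤ) : ℂ :=
  vN N ^ (4 * m) * (-1) ^ ls.length * Pool.Agent.W719.AR.kp N ^ (wts ls).sum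

/-- the sum in the exact formula for the closed braid -/
noncomputable def SB (N : ℕ) (ls : List (ℤ × ℤ)) (m : ℤ) : ℂ :=
  ∑ p ∈ range N, deriv (fun χ => wE N m χ * Tf N ls χ) (2 * π * p / N) -
    2 * Complex.I * m * N * ∑ p ∈ range N, wE N m (2 * π * p / N) * Thi N ls p

/-- the sum in the exact formula for the closed braid with its axis -/
noncomputable def SA (N : ℕ) (ls : List (ℤ × ℤ)) (m : ℤ) : ℂ :=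
  ∑ p ∈ range N, Ea (2 * m) N (2 * π * p / N) * Tf N ls (2 * π * p / N)

/-- EXP: the exact formula for the closed braid, with its phase -/
def S_EXP : Prop := ∀ (N : ℕ) (ls : List (ℤ × ℤ)) (m : ℤ), 2 ≤ N → ls ≠ [] →
  Pool.Agent.H550R3.Jones.cjones N 2 (ftw m ++ bw ls) (vN N) = pz N ls m * SB N ls m

/-- a basis vector of three strands -/
def dl3 (a b c : ℕ) : V3 := fun x y z => if x = a ∧ y = b ∧ z = c then 1 else 0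

/-- TR3: the trace on three strands, generic deformation parameter -/
def S_TR3 : Prop := ∀ (N : ℕ) (w l : ℂ), Rt N w → Gl l → ∀ X : V3 →ₗ[ℂ] V3, Gd3 N w l X →
  (∀ m : V2, ∀ D : ℕ, (∀ a b, a + b ≠ D → m a b = 0) →
    ∀ a b, a + b ≠ D → hat w l X m a b = 0) →
  ∑ a ∈ range N, ∑ b ∈ range N, ∑ c ∈ range N, X (dl3 a b c) a b c =
    N * ∑ q ∈ range N, ∑ s ∈ range N, hat w l X (dl q s) q s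

/-- AXP: the exact formula for the trace of the braid (the closed braid with its axis) -/
def S_AXP : Prop := ∀ (N : ℕ) (ls : List (ℤ × ℤ)) (m : ℤ), 2 ≤ N → ls ≠ [] →
  (Pool.Agent.W715.VC.rep3 N (ftw m ++ bw ls)).trace = N * pz N ls m * SA N ls m

/-! ### Reduction to the neighbourhood of `χ = 0` -/

/-- the sum over the values `χ = 2 π p / N`, near part -/
noncomputable def nearS (R : ℝ) (N : ℕ) (h : ℂ → ℂ) : ℂ :=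
  ∑ p ∈ Icc (-(⌊R / 4 * N / (2 * π)⌋₊ : ℤ)) ⌊R / 4 * N / (2 * π)⌋₊, h (2 * π * p / N)

/-- NR: reduction to the near part, closed braid -/
def S_NR : Prop := ∀ (k : ℕ) (R : ℝ), 1 ≤ k → 0 < R → R ≤ 1 → ∃ κ : ℝ, 0 < κ ∧
  ∀ (ls : List (ℤ × ℤ)) (m : ℤ), ls.length = k → ∀ᶠ N : ℕ in atTop,
    ‖SB N ls m - ((N : ℂ) / (2 * π)) ^ (2 * k) *
      nearS R N (deriv fun χ => wE N m χ * XN ls N χ)‖ ≤ Real.exp (N * (4 * k * bet - κ))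

/-- NRA: reduction to the near part, closed braid with its axis -/
def S_NRA : Prop := ∀ (k : ℕ) (R : ℝ), 1 ≤ k → 0 < R → R ≤ 1 → ∃ κ : ℝ, 0 < κ ∧
  ∀ (ls : List (ℤ × ℤ)) (m : ℤ), ls.length = k → ∀ᶠ N : ℕ in atTop,
    ‖SA N ls m - ((N : ℂ) / (2 * π)) ^ (2 * k) *
      nearS R N (fun χ => Ea (2 * m) N χ * XN ls N χ)‖ ≤ Real.exp (N * (4 * k * bet - κ))

/-! ### Expansion of the kernel -/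

/-- EMT: expansion of `Tg N d χ`, both parities of `N` -/
def S_EMT : Prop := ∃ ρ : ℝ, 0 < ρ ∧ ρ ≤ 1 / 16 ∧ ∃ t : ℕ → ℂ → ℂ → ℂ,
  (∀ k, ∀ χ ∈ ball (0 : ℂ) ρ, DifferentiableOn ℂ (fun δ => t k δ χ) (ball (1 / 4) ρ)) ∧
  (∀ k, ∃ B : ℝ, ∀ δ ∈ ball (1 / 4 : ℂ) ρ, ∀ χ ∈ ball (0 : ℂ) ρ, ‖t k δ χ‖ ≤ B) ∧
  ∀ K : ℕ, ∃ C : ℝ, ∀ᶠ N : ℕ in atTop, ∀ d : ℕ, |(d : ℝ) / N - 1 / 4| < ρ →
    ∀ χ ∈ ball (0 : ℂ) ρ, ∃ e : ℂ, ‖e‖ ≤ C / (N : ℝ) ^ K ∧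
      Tg N d χ = Complex.exp (N * rrF (1 / 2 - (d : ℂ) / N) χ +
        ∑ k ∈ range K, t k ((d : ℂ) / N) χ / (N : ℂ) ^ k + e)

/-- the normalised kernel -/
noncomputable def kx3 (s : ℂ → ℂ → ℂ → ℂ) (N : ℕ) (x : ℂ × ℂ × ℂ) : ℂ :=
  (Real.sqrt N : ℂ) * Complex.exp (-(N * s x.1 x.2.1 x.2.2)) * kh N x.1 x.2.1 x.2.2

/-- KXR3: the kernel at real points -/
def S_KXR3 : Prop := S_EMT → ∀ (ρ₀ c C : ℝ) (s dl : ℂ → ℂ → ℂ → ℂ), SD3 ρ₀ c C s dl →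
  ∃ ρ₁ : ℝ, 0 < ρ₁ ∧ ρ₁ ≤ ρ₀ ∧ ∃ (a : ℕ → ℂ × ℂ × ℂ → ℂ) (c₁ : ℝ), 0 < c₁ ∧
    UX (kx3 s) a (Rl ρ₁ ×ˢ Rl ρ₁ ×ˢ Rl ρ₁) ∧ ∀ x ∈ Rl ρ₁ ×ˢ Rl ρ₁ ×ˢ Rl ρ₁, c₁ ≤ ‖a 0 x‖

/-- KLOG3: logarithm of the kernel -/
def S_KLOG3 : Prop := ∀ (ρ₀ c C : ℝ) (s dl : ℂ → ℂ → ℂ → ℂ), SD3 ρ₀ c C s dl →
  ∃ (ρ₁ C₀ : ℝ) (L : ℕ → ℂ → ℂ → ℂ → ℂ), 0 < ρ₁ ∧ ρ₁ ≤ ρ₀ ∧ ∀ᶠ N : ℕ in atTop,
    (∀ ψ' ∈ Rc ρ₁ ρ₁, ∀ χ ∈ Rc ρ₁ ρ₁, DifferentiableOn ℂ (fun ψ => L N ψ ψ' χ) (Rc ρ₁ ρ₁)) ∧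
    (∀ ψ ∈ Rc ρ₁ ρ₁, ∀ χ ∈ Rc ρ₁ ρ₁, DifferentiableOn ℂ (fun ψ' => L N ψ ψ' χ) (Rc ρ₁ ρ₁)) ∧
    (∀ ψ ∈ Rc ρ₁ ρ₁, ∀ ψ' ∈ Rc ρ₁ ρ₁, DifferentiableOn ℂ (fun χ => L N ψ ψ' χ) (Rc ρ₁ ρ₁)) ∧
    ∀ ψ ∈ Rc ρ₁ ρ₁, ∀ ψ' ∈ Rc ρ₁ ρ₁, ∀ χ ∈ Rc ρ₁ ρ₁, ‖L N ψ ψ' χ‖ ≤ C₀ * N ∧
      Complex.exp (L N ψ ψ' χ) = kx3 s N (ψ, ψ', χ) ∧
      (ψ.im = 0 → ψ'.im = 0 → χ.im = 0 → (L N ψ ψ' χ).im = 0)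

/-- the expansion of the kernel near the origin -/
structure KXD3 (ρ₂ : ℝ) (s : ℂ → ℂ → ℂ → ℂ) (A : ℕ → ℂ × ℂ × ℂ → ℂ) : Prop where
  hρ : 0 < ρ₂
  ux : UX (kx3 s) A (Rc ρ₂ ρ₂ ×ˢ Rc ρ₂ ρ₂ ×ˢ Rc ρ₂ ρ₂)
  d1 : ∀ k, ∀ y ∈ Rc ρ₂ ρ₂, ∀ z ∈ Rc ρ₂ ρ₂, DifferentiableOn ℂ (fun x => A k (x, y, z)) (Rc ρ₂ ρ₂)
  d2 : ∀ k, ∀ x ∈ Rc ρ₂ ρ₂, ∀ z ∈ Rc ρ₂ ρ₂, DifferentiableOn ℂ (fun y => A k (x, y, z)) (Rc ρ₂ ρ₂)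
  d3 : ∀ k, ∀ x ∈ Rc ρ₂ ρ₂, ∀ y ∈ Rc ρ₂ ρ₂, DifferentiableOn ℂ (fun z => A k (x, y, z)) (Rc ρ₂ ρ₂)
  nz : ∃ c₁ : ℝ, 0 < c₁ ∧ ∀ x ∈ Rc ρ₂ ρ₂ ×ˢ Rc ρ₂ ρ₂ ×ˢ Rc ρ₂ ρ₂, c₁ ≤ ‖A 0 x‖

/-- KXC3: the kernel at complex points -/
def S_KXC3 : Prop := S_KXR3 → S_EMT → S_KLOG3 → ∀ (ρ₀ c C : ℝ) (s dl : ℂ → ℂ → ℂ → ℂ),
  SD3 ρ₀ c C s dl → ∃ (ρ₂ : ℝ) (A : ℕ → ℂ × ℂ × ℂ → ℂ), ρ₂ ≤ ρ₀ ∧ KXD3 ρ₂ s A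

/-! ### Elimination with expansions -/

/-- expansions of functions of `L` variables in a box -/
def EXL (L : ℕ) (r : ℝ) (f : ℕ → (ℕ → ℂ) → ℂ) (Φ : (ℕ → ℂ) → ℂ) : Prop :=
  ∃ (A : ℕ → (ℕ → ℂ) → ℂ) (c₁ : ℝ), 0 < c₁ ∧
    UX (fun N ψ => Complex.exp (-(N * Φ ψ)) * f N ψ) A (Bx L r) ∧
    (∀ ψ ∈ Bx L r, c₁ ≤ ‖A 0 ψ‖) ∧
    ∀ k, ∀ ψ ∈ Bx L r, ∀ i < L, DifferentiableOn ℂ (fun w => A k (Function.update ψ i w)) (Rc r r)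

/-- WX: expansion of the kernel of the ring -/
def S_WX : Prop := ∀ (ρ₀ c C : ℝ) (s dl : ℂ → ℂ → ℂ → ℂ), SD3 ρ₀ c C s dl →
  ∀ (ρ₂ : ℝ) (A : ℕ → ℂ × ℂ × ℂ → ℂ), ρ₂ ≤ ρ₀ → KXD3 ρ₂ s A → ∀ n : ℕ, 2 ≤ n →
  ∀ r : ℝ, 0 < r → r ≤ ρ₂ →
    EXL (n + 1) r (fun N ψ => (Real.sqrt N : ℂ) ^ n * Wk n N (ψ n) ψ) (Sr s n)

/-- LOCN: localisation of the near part of the integral at the critical point, uniformly in a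
parameter (as `Pool.Agent.W719.AX.S_LOCG`) -/
def S_LOCN : Prop := ∀ (ρ τ C : ℝ) (a : ℤ) (E : Type) [MetricSpace E] (K : Set E)
  (Y : ℕ → ℂ → E → ℂ) (G : ℂ → E → ℂ) (z : E → ℂ), 0 < ρ → ρ ≤ 1 / 4 → 0 < τ → a ≠ 0 → 0 < C →
  IsCompact K →
  (∀ N, ∀ p ∈ K, Differentiable ℂ (fun w => Y N w p)) →
  (∀ p ∈ K, DifferentiableOn ℂ (fun w => G w p) (Rc (2 * ρ) (2 * τ))) →
  ContinuousOn (fun x : ℂ × E => G x.1 x.2) (Rc (2 * ρ) (2 * τ) ×ˢ K) →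
  ContinuousOn z K →
  (∀ ε : ℝ, 0 < ε → ∀ᶠ N : ℕ in atTop, ∀ w ∈ Rc (2 * ρ) (2 * τ), ∀ p ∈ K,
    Y N w p ≠ 0 ∧ |Real.log ‖Y N w p‖ - N * (G w p).re| ≤ ε * N) →
  (∀ p ∈ K, CPt C ρ τ a (z p) ∧ SAD a (fun w => G w p) ρ (z p)) →
  ∀ δ : ℝ, 0 < δ → (∀ p ∈ K, |(z p).re| + δ ≤ ρ) →
  ∃ κ' : ℝ, 0 < κ' ∧ ∀ᶠ N : ℕ in atTop, ∀ p ∈ K,
    ‖LN ρ a N (fun w => Y N w p) - ∫ x in (-δ)..δ, ig a N (z p + x) * Y N (z p + x) p‖ ≤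
      Real.exp (N * ((qq a (fun w => G w p) (z p)).re - κ'))

/-- ELX: elimination of the variables number `0, …, j - 1`, with expansions -/
def S_ELX : Prop := S_LOCN → ∀ (L : ℕ) (R c B p₀ C : ℝ), 0 < C → ∃ M : ℝ, 0 < M ∧
  ∀ (S : (ℕ → ℂ) → ℂ) (D : ℕ → (ℕ → ℂ) → ℂ), Pot L R c B p₀ S D → ∀ a : ℕ → ℤ,
    (∀ j < L, M ≤ |(a j : ℝ)|) → ∀ zz : ℕ → (ℕ → ℂ) → ℕ → ℂ, Crt L R c B p₀ C S D a zz →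
    ∀ f : ℕ → (ℕ → ℂ) → ℂ, (∀ N, Sep L (f N)) → (∀ r : ℝ, 0 < r → r < R / 2 → EXL L r f S) →
      ∀ j ≤ L, ∀ r : ℝ, 0 < r → r < R / 2 →
        EXL L r (fun N ψ => (Real.sqrt N : ℂ) ^ j * (-1) ^ (N * j) *
          itN (fun _ => R / 8) a N j (f N) ψ) (fun ψ => Uj S a j (zz j ψ))

/-- expansion of a function of the variable `χ` -/
structure GXc (R : ℝ) (X : ℕ → ℂ → ℂ) (G : ℂ → ℂ) (A : ℕ → ℂ → ℂ) : Prop where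
  ux : UX (fun N χ => Complex.exp (-(N * G χ)) * X N χ) A (Rc R R)
  an : ∀ k, DifferentiableOn ℂ (A k) (Rc R R)
  nz : ∀ χ ∈ Rc R R, A 0 χ ≠ 0

/-- XLX: expansion of `XN` (`Pool.Agent.Y472.S_XL` with the expansion) -/
def S_XLX : Prop := S_WX → S_ELX → S_LOCN → ∀ (ρ₀ c C : ℝ) (s dl : ℂ → ℂ → ℂ → ℂ),
  SD3 ρ₀ c C s dl → (∃ (ρ₂ : ℝ) (A : ℕ → ℂ × ℂ × ℂ → ℂ), ρ₂ ≤ ρ₀ ∧ KXD3 ρ₂ s A) →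
  ∀ k : ℕ, 1 ≤ k → ∃ R c' : ℝ, 0 < R ∧ R ≤ 1 ∧ R ≤ ρ₀ ∧ 0 < c' ∧
    ∃ B C' M : ℝ, 0 < B ∧ 0 < C' ∧ 0 < M ∧ ∀ ls : List (ℤ × ℤ), ls.length = k →
      (∀ p ∈ ls, M ≤ |(p.1 : ℝ)| ∧ M ≤ |(p.2 : ℝ)|) →
      ∃ (G : ℂ → ℂ) (z : ℂ → ℕ → ℂ) (A : ℕ → ℂ → ℂ),
        DifferentiableOn ℂ G (Rc R R) ∧ (∀ χ ∈ Rc R R, G (-χ) = G χ) ∧
        (∀ χ ∈ Rc R R, ‖G χ‖ ≤ B ∧ (deriv (deriv G) χ).re ≤ -c' ∧ bet / 2 ≤ (G χ).re) ∧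
        GXc R (fun N χ => (N : ℂ) ^ (2 * k) * XN ls N χ) G A ∧
        (∀ χ ∈ Rc R R, (∀ j < 2 * k, z χ j ∈ Rc (R / 2) (R / 2) ∧ 0 < (z χ j).im ∧
            ‖z χ j‖ ≤ 1 / 10 ∧
          Complex.I * cw ls ((j + 1) % (2 * k)) * z χ ((j + 1) % (2 * k)) / (2 * π) + Complex.I +
            deriv (fun w => s (z χ j) w χ) (z χ ((j + 1) % (2 * k))) +
            deriv (fun w => s w (z χ (((j + 1) % (2 * k) + 1) % (2 * k))) χ)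
              (z χ ((j + 1) % (2 * k))) = 0) ∧
          deriv G χ = ∑ j ∈ range (2 * k), deriv (fun w => s (z χ j) (z χ ((j + 1) % (2 * k))) w) χ ∧
          G χ = ∑ j ∈ range (2 * k), (Complex.I * cw ls j * z χ j ^ 2 / (4 * π) +
            Complex.I * z χ j + s (z χ j) (z χ ((j + 1) % (2 * k))) χ)) ∧
        ∀ m : ℝ, (∀ p ∈ ls, m ≤ |(p.1 : ℝ)| ∧ m ≤ |(p.2 : ℝ)|) → 0 < m →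
          ‖G 0 - ((4 * k * bet : ℝ) : ℂ)‖ ≤ C' / m

/-! ### The variable of the axis -/

/-- CHIX: the sum over the values `χ = 2 π p / N`, closed braid -/
def S_CHIX : Prop := ∀ (R c B p₀ : ℝ), 0 < R → R ≤ 1 → 0 < c → 0 < p₀ → ∃ C M : ℝ, 0 < C ∧ 0 < M ∧
  ∀ (X : ℕ → ℂ → ℂ) (G : ℂ → ℂ) (A : ℕ → ℂ → ℂ), (∀ N, Differentiable ℂ (X N)) →
    (∀ N z, X N (-z) = X N z) →
    DifferentiableOn ℂ G (Rc R R) → (∀ z ∈ Rc R R, G (-z) = G z) →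
    (∀ z ∈ Rc R R, ‖G z‖ ≤ B ∧ (deriv (deriv G) z).re ≤ -c ∧ p₀ ≤ (G z).re) → GXc R X G A →
    ∀ m : ℤ, M ≤ |(m : ℝ)| → ∃ z : ℂ, z ∈ Rc (R / 4) (R / 4) ∧ 0 < z.im ∧ ‖z‖ ≤ C / |(m : ℝ)| ∧
      Complex.I * m * z / π + Complex.I + deriv G z = 0 ∧
      ‖Complex.I * m * z ^ 2 / (2 * π) + Complex.I * z + G z - G 0‖ ≤ C / |(m : ℝ)| ∧
      ∃ y : ℕ → ℂ, y 0 ≠ 0 ∧ EXY (fun N => nearS R N (deriv fun χ => wE N m χ * X N χ))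
        (Complex.I * m * z ^ 2 / (2 * π) + Complex.I * z + G z) y

/-- AXX: the sum over the values `χ = 2 π p / N`, closed braid with its axis -/
def S_AXX : Prop := ∀ (R c B : ℝ), 0 < R → R ≤ 1 → 0 < c →
  ∀ (X : ℕ → ℂ → ℂ) (G : ℂ → ℂ) (A : ℕ → ℂ → ℂ), (∀ N, Differentiable ℂ (X N)) →
    (∀ N z, X N (-z) = X N z) →
    DifferentiableOn ℂ G (Rc R R) → (∀ z ∈ Rc R R, G (-z) = G z) →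
    (∀ z ∈ Rc R R, ‖G z‖ ≤ B ∧ (deriv (deriv G) z).re ≤ -c) → GXc R X G A →
    ∀ m : ℤ, ∃ y : ℕ → ℂ, y 0 ≠ 0 ∧
      EXY (fun N => N * nearS R N (fun χ => Ea (2 * m) N χ * X N χ)) (G 0) y

/-! ### Assembly -/

/-- MX: the expansion for the closed braid -/
def S_MX : Prop := ∃ (ρ₀ c C : ℝ) (s dl : ℂ → ℂ → ℂ → ℂ), SD3 ρ₀ c C s dl ∧ ∀ k : ℕ, 1 ≤ k →
  ∃ M : ℝ, ∀ (ls : List (ℤ × ℤ)) (m : ℤ), ls.length = k →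
    (∀ p ∈ ls, M ≤ |(p.1 : ℝ)| ∧ M ≤ |(p.2 : ℝ)|) → M ≤ |(m : ℝ)| →
    ∃ (z : ℕ → ℂ) (χ : ℂ) (y : ℕ → ℂ), RCrit3 s ρ₀ (2 * k) (cw ls) m z χ ∧ ‖χ‖ < 1 / 10 ∧
      y 0 ≠ 0 ∧
      EXY (fun N => Pool.Agent.H550R3.Jones.cjones N 2 (ftw m ++ bw ls) (vN N))
        (RVal3 s (2 * k) (cw ls) m z χ - π * Complex.I / 4 * (wts ls).sum) y

/-- critical configurations at `χ = 0` -/
def RCrit0 (s : ℂ → ℂ → ℂ → ℂ) (ρ : ℝ) (n : ℕ) (a : ℕ → ℤ) (z : ℕ → ℂ) : Prop :=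
  ∀ j < n, z j ∈ Rc ρ ρ ∧ 0 < (z j).im ∧ ‖z j‖ ≤ 1 / 10 ∧
    Complex.I * a ((j + 1) % n) * z ((j + 1) % n) / (2 * π) + Complex.I +
      deriv (fun w => s (z j) w 0) (z ((j + 1) % n)) +
      deriv (fun w => s w (z (((j + 1) % n + 1) % n)) 0) (z ((j + 1) % n)) = 0

/-- the critical value at `χ = 0` -/
noncomputable def RVal0 (s : ℂ → ℂ → ℂ → ℂ) (n : ℕ) (a : ℕ → ℤ) (z : ℕ → ℂ) : ℂ :=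
  ∑ j ∈ range n, (Complex.I * a j * z j ^ 2 / (4 * π) + Complex.I * z j +
    s (z j) (z ((j + 1) % n)) 0)

/-- MXA: the expansion for the closed braid with its axis -/
def S_MXA : Prop := ∃ (ρ₀ c C : ℝ) (s dl : ℂ → ℂ → ℂ → ℂ), SD3 ρ₀ c C s dl ∧ ∀ k : ℕ, 1 ≤ k →
  ∃ M : ℝ, ∀ (ls : List (ℤ × ℤ)) (m : ℤ), ls.length = k →
    (∀ p ∈ ls, M ≤ |(p.1 : ℝ)| ∧ M ≤ |(p.2 : ℝ)|) →
    ∃ (z : ℕ → ℂ) (y : ℕ → ℂ), RCrit0 s ρ₀ (2 * k) (cw ls) z ∧ y 0 ≠ 0 ∧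
      EXY (fun N => (Pool.Agent.W715.VC.rep3 N (ftw m ++ bw ls)).trace)
        (RVal0 s (2 * k) (cw ls) z - π * Complex.I / 4 * (wts ls).sum) y

end Pool.Agent.Y482.Ph
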