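import Pool.Agent.Y814.PH.Exp
import Pool.Agent.Y941.PH.TR3
import Pool.Agent.Y448.PH.AxpC
import Pool.Agent.Y833.PH.Nr
import Pool.Agent.Y814.PH.Emt
import Pool.Agent.Y304.PH.Kxr3
import Pool.Agent.Y852.PH.KLog3
import Pool.Agent.Y419.PH.Kxc3
import Pool.Agent.Y710.PH.WX
import Pool.Agent.Y710.PH.LOCN
import Pool.Agent.Y784.PH.ELX
import Pool.Agent.Y304.PH.Xlx
import Pool.Agent.Y497.PH.Chix
import Pool.Agent.Y837.PH.Axx
import Pool.Agent.Y852.PH.MX

/-!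
# Closed 3-braids, with and without the braid axis: expansions to all orders
-/

set_option autoImplicit false

namespace Pool.Agent.Y482.Ph

open Pool.Agent.Y852.PH.MX (mx_all mxa_all)

/-- the expansion for the closed braid -/
theorem mx : S_MX :=
  mx_all Pool.Agent.Y814.PH.exp_formula Pool.Agent.Y833.PH.nr Pool.Agent.Y304.PH.xlx
    Pool.Agent.Y710.PH.wx Pool.Agent.Y784.PH.elx Pool.Agent.Y710.PH.locn
    Pool.Agent.Y419.PH.kxc3 Pool.Agent.Y304.PH.kxr3 Pool.Agent.Y814.PH.Emt.emt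
    Pool.Agent.Y852.PH.KLog3.klog3 Pool.Agent.Y497.PH.chix

/-- the expansion for the closed braid with its axis -/
theorem mxa : S_MXA :=
  mxa_all (Pool.Agent.Y448.PH.axp Pool.Agent.Y941.PH.tr3) Pool.Agent.Y833.PH.nra
    Pool.Agent.Y304.PH.xlx Pool.Agent.Y710.PH.wx Pool.Agent.Y784.PH.elx Pool.Agent.Y710.PH.locn
    Pool.Agent.Y419.PH.kxc3 Pool.Agent.Y304.PH.kxr3 Pool.Agent.Y814.PH.Emt.emt
    Pool.Agent.Y852.PH.KLog3.klog3 Pool.Agent.Y837.PH.axx

end Pool.Agent.Y482.Ph
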